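import Pool.Agent.R522.Mk.Split

set_option autoImplicit false

open Pool.Agent.W689.Mk Pool.Agent.R774.MK

namespace Pool.Agent.Results.MP_df2bd8_gt.DistalTimesHyperplanes

/-- The family of linear automorphisms `A` of `V` is distal: there are subspaces
`0 = S 0, S 1, …, S m = V` such that the family is uniformly bounded on `S (i + 1)` modulo `S i`
for every `i < m`. -/
def Distal {Γ V : Type} [NormedAddCommGroup V] [NormedSpace ℝ V] (A : Γ → V ≃ₗ[ℝ] V) : Prop :=
  ∃ (S : ℕ → Submodule ℝ V) (m : ℕ), S 0 = ⊥ ∧ S m = ⊤ ∧
    ∀ i < m, ∃ C : ℝ, ∀ γ : Γ, ∀ v ∈ S (i + 1), ∃ w ∈ S i, ‖A γ v - w‖ ≤ C * ‖v‖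

/-- Every closed affine manifold with parallel volume which is modelled on the affine space
`V × W`, whose cover `X` has the group `Γ` and an injective developing map `dev`, and whose linear
holonomy consists of products `A γ × B γ`, is complete (the developing map is a homeomorphism),
provided that the family `A` is distal or all geodesics in the directions of `V` are defined up to
time one, and that all the `B γ` belong to the class `P`. -/
def Complete (X Γ V W : Type) [TopologicalSpace X] [Group Γ] [MulAction Γ X]
    [NormedAddCommGroup V] [NormedSpace ℝ V] [NormedAddCommGroup W] [NormedSpace ℝ W]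
    (P : (W ≃ₗ[ℝ] W) → Prop) : Prop :=
  ∀ (dev : X → V × W) (hol : Γ →* ((V × W) ≃ᵃ[ℝ] (V × W))) (A : Γ → V ≃ₗ[ℝ] V)
    (B : Γ → W ≃ₗ[ℝ] W), AffData X Γ (V × W) dev hol → Function.Injective dev →
    (∀ γ v w, (hol γ).linear (v, w) = (A γ v, B γ w)) →
    (Distal A ∨ ∀ (x : X) (v : V), Geod dev x (v, 0)) → (∀ γ : Γ, P (B γ)) → IsHomeomorph dev

section
variable (K : Type) [NormedDivisionRing K] {W : Type} [NormedAddCommGroup W] [NormedSpace ℝ W]
  [Module K W]

/-- a `K`-semilinear automorphism -/
def Semilinear (L : W ≃ₗ[ℝ] W) : Prop :=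
  ∃ σ : K ≃+* K, ∀ (a : K) (v : W), L (a • v) = σ a • L v

/-- the map is bounded from below by `δ` on some `K`-hyperplane -/
def BoundedBelow (δ : ℝ) (L : W ≃ₗ[ℝ] W) : Prop :=
  ∃ f : W →ₗ[K] K, f ≠ 0 ∧ ∀ v, f v = 0 → δ * ‖v‖ ≤ ‖L v‖

end

/-- the Hermite-Lorentz form -/
def lorentz (K : Type) [NormedDivisionRing K] (n : ℕ) (v : Fin (n + 1) → K) : ℝ :=
  ∑ i : Fin n, ‖v i.succ‖ ^ 2 - ‖v 0‖ ^ 2

/-- complex affine space of dimension three -/
abbrev C3 : Type := EuclideanSpace ℂ (Fin 3)

/-- the standard complex quadratic form -/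
def quad (v : C3) : ℂ := ∑ i, v i ^ 2

/-- the automorphism is complex linear -/
def ComplexLinear (L : C3 → C3) : Prop := ∀ (a : ℂ) (v : C3), L (a • v) = a • L v

/-- The completeness theorem for model spaces `V × W` and arbitrary `K`-modules `W`: for linear
holonomy on `W` which is `K`-semilinear and either bounded from below by one constant `δ > 0` on
some `K`-hyperplane, or of determinant `± 1` with `W` of dimension two over `K`. -/
def ProductComplete (K X Γ V : Type) [NormedDivisionRing K] [NormedAlgebra ℝ K]
    [TopologicalSpace X] [Group Γ] [MulAction Γ X] [NormedAddCommGroup V] [NormedSpace ℝ V] :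
    Prop :=
  ∀ (W : Type) [NormedAddCommGroup W] [NormedSpace ℝ W] [FiniteDimensional ℝ W] [Module K W]
    [IsScalarTower ℝ K W] [IsBoundedSMul K W],
    (∀ δ : ℝ, 0 < δ → Complete X Γ V W fun L => Semilinear K L ∧ BoundedBelow K δ L) ∧
    (Module.finrank K W = 2 →
      Complete X Γ V W fun L => Semilinear K L ∧ |LinearMap.det (L : W →ₗ[ℝ] W)| = 1)

/-- For every point `x` there is a `K`-hyperplane `f w = 0` of `W` such that from all points `y`
with `dev y` in `dev x + W` all geodesics with velocity in the hyperplane are defined: each slice of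
the developing image parallel to `W` is foliated by complete parallel `K`-hyperplanes. (`ι` is the
inclusion of `W` in the model space.) -/
def Foliated (K : Type) [NormedDivisionRing K] {X E W : Type} [TopologicalSpace X]
    [NormedAddCommGroup E] [NormedSpace ℝ E] [NormedAddCommGroup W] [NormedSpace ℝ W] [Module K W]
    (dev : X → E) (ι : W →ₗ[ℝ] E) : Prop :=
  ∀ x : X, ∃ f : W →ₗ[K] K, f ≠ 0 ∧
    ∀ (y : X) (u w : W), dev y = dev x + ι u → f w = 0 → Geod dev y (ι w)

/-- Closed affine manifolds (or orbifolds) with parallel volume whose cover `X` has the group `Γ`,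
which are modelled on `E`, with an injective developing map, and whose linear holonomy restricts to
`B γ` on a subspace `W` (with inclusion `ι`), where the `B γ` are semilinear and bounded from below
by one constant `δ > 0` on `K`-hyperplanes: each slice of the developing image parallel to `W` is
foliated by complete parallel `K`-hyperplanes. -/
def SlicesFoliated (K X Γ : Type) [NormedDivisionRing K] [NormedAlgebra ℝ K]
    [TopologicalSpace X] [Group Γ] [MulAction Γ X] : Prop :=
  ∀ (E W : Type) [NormedAddCommGroup E] [NormedSpace ℝ E] [FiniteDimensional ℝ E]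
    [NormedAddCommGroup W] [NormedSpace ℝ W] [FiniteDimensional ℝ W] [Module K W]
    [IsScalarTower ℝ K W] [IsBoundedSMul K W]
    (dev : X → E) (hol : Γ →* (E ≃ᵃ[ℝ] E)) (ι : W →ₗ[ℝ] E) (B : Γ → W ≃ₗ[ℝ] W) (δ : ℝ), 0 < δ →
    AffData X Γ E dev hol → Function.Injective dev →
    (∀ γ w, (hol γ).linear (ι w) = ι (B γ w)) →
    (∀ γ : Γ, Semilinear K (B γ) ∧ BoundedBelow K δ (B γ)) → Foliated K dev ι

/-- Let `K` be a finite dimensional real normed division algebra (the reals, the complex numbers,
the quaternions), and `V` a finite dimensional real vector space. A closed affine manifold (or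
orbifold) with parallel volume modelled on `V × W`, given by a connected cover `X` with its group
`Γ`, developing map and holonomy, whose developing map is injective and whose linear holonomy
consists of products `A γ × B γ`, where the family `A` is distal or the geodesics in the directions
of `V` are complete, is complete in each of the following cases.

* The `B γ` are `K`-semilinear and bounded from below by one constant `δ > 0` on some
  `K`-hyperplane (in `ProductComplete`).
* `W` has dimension two over `K` and the `B γ` are `K`-semilinear of determinant `± 1` (in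
  `ProductComplete`).
* `W = K ^ (n + 1)`, the `B γ` are `K`-semilinear and preserve the Hermite-Lorentz form
  `∑ i, |v (i + 1)| ^ 2 - |v 0| ^ 2`.
* `W = ℂ ^ 3`, the `B γ` are complex linear and preserve the complex quadratic form
  `∑ i, v i ^ 2`.

The last part needs no condition outside of `W`: if the linear holonomy preserves a subspace `W` of
the model space `E` (without invariant complement), and is on `W` semilinear and bounded from below
by one constant `δ > 0` on `K`-hyperplanes, then each slice of the developing image parallel to `W`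
is foliated by complete parallel `K`-hyperplanes. -/
theorem result (K : Type) [NormedDivisionRing K] [NormedAlgebra ℝ K] [FiniteDimensional ℝ K]
    (X Γ V : Type) [TopologicalSpace X] [T2Space X] [SecondCountableTopology X] [ConnectedSpace X]
    [Group Γ] [MulAction Γ X] [NormedAddCommGroup V] [NormedSpace ℝ V] [FiniteDimensional ℝ V] :
    ProductComplete K X Γ V ∧
    (∀ n : ℕ, Complete X Γ V (Fin (n + 1) → K) fun L => Semilinear K L ∧
      ∀ v, lorentz K n (L v) = lorentz K n v) ∧
    (Complete X Γ V C3 fun L => ComplexLinear L ∧ ∀ v, quad (L v) = quad v) ∧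
    SlicesFoliated K X Γ := by
  refine ⟨?_, ?_, ?_, ?_⟩
  · intro W _ _ _ _ _ _
    refine ⟨fun δ hδ dev hol A B D hinj hAB hA hP => ?_,
      fun h2 dev hol A B D hinj hAB hA hP => ?_⟩
    · have hVc : ∀ (x : X) (v : V), Geod dev x (v, 0) := by
        rcases hA with ⟨S, m, h0, hm, hC⟩ | h
        · exact Pool.Agent.R522.Mk.distal_dirs D A B hAB S m h0 hm hC
        · exact h
      refine Pool.Agent.R522.Mk.split_complete (K := K) D hinj A B hAB hVc (fun γ => (hP γ).1) hδ
        fun γ => ?_
      obtain ⟨f, hf, h⟩ := (hP γ).2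
      obtain ⟨g, hg1, hg2, hg3⟩ := klin_of hf
      exact ⟨g, hg1, hg2, fun v hv => h v (by rw [← hg3]; exact hv)⟩
    · have hVc : ∀ (x : X) (v : V), Geod dev x (v, 0) := by
        rcases hA with ⟨S, m, h0, hm, hC⟩ | h
        · exact Pool.Agent.R522.Mk.distal_dirs D A B hAB S m h0 hm hC
        · exact h
      refine Pool.Agent.R522.Mk.split_complete (K := K) D hinj A B hAB hVc (fun γ => (hP γ).1)
        (δ := 1 / 2) (by norm_num) fun γ => ?_
      obtain ⟨σ, hσ⟩ := (hP γ).1
      exact two_dim h2 hσ (hP γ).2
  · intro n dev hol A B D hinj hAB hA hP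
    have hVc : ∀ (x : X) (v : V), Geod dev x (v, 0) := by
      rcases hA with ⟨S, m, h0, hm, hC⟩ | h
      · exact Pool.Agent.R522.Mk.distal_dirs D A B hAB S m h0 hm hC
      · exact h
    refine Pool.Agent.R522.Mk.split_complete (K := K) D hinj A B hAB hVc (fun γ => (hP γ).1)
      (δ := 1 / (n + 1 : ℝ)) (by positivity) fun γ => ?_
    exact form_bound _ (hP γ).2
  · intro dev hol A B D hinj hAB hA hP
    have hVc : ∀ (x : X) (v : V), Geod dev x (v, 0) := by
      rcases hA with ⟨S, m, h0, hm, hC⟩ | h
      · exact Pool.Agent.R522.Mk.distal_dirs D A B hAB S m h0 hm hC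
      · exact h
    have hlin : ∀ (γ : Γ) (a : ℂ) (v : C3), B γ (a • v) = a • B γ v := fun γ => (hP γ).1
    have hquad : ∀ (γ : Γ) (v : C3), ∑ i, B γ v i ^ 2 = ∑ i, v i ^ 2 := fun γ => (hP γ).2
    refine Pool.Agent.R522.Mk.split_complete (K := ℂ) D hinj A B hAB hVc
      (fun γ => ⟨RingEquiv.refl ℂ, hlin γ⟩) (δ := 1) one_pos fun γ => ?_
    let T : EuclideanSpace ℂ (Fin 3) →ₗ[ℂ] EuclideanSpace ℂ (Fin 3) :=
      { toFun := fun v => B γ v
        map_add' := fun v w => map_add _ v w
        map_smul' := fun a v => hlin γ a v }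
    obtain ⟨f, hf, h⟩ := three_dim T (by
      intro v w
      have h1 : ∀ v : EuclideanSpace ℂ (Fin 3), bil (T v) (T v) = bil v v := by
        intro v
        have := hquad γ v
        unfold bil
        simp only [sq] at this
        exact this
      have h2 : ∀ v w : EuclideanSpace ℂ (Fin 3), bil (v + w) (v + w) =
          bil v v + 2 * bil v w + bil w w := by
        intro v w
        unfold bil
        rw [Finset.mul_sum, ← Finset.sum_add_distrib, ← Finset.sum_add_distrib]
        refine Finset.sum_congr rfl fun i _ => ?_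
        rw [PiLp.add_apply]
        ring
      have h3 := h1 (v + w)
      rw [map_add, h2, h2, h1, h1] at h3
      have h4 : 2 * bil (T v) (T w) = 2 * bil v w := by linear_combination h3
      exact mul_left_cancel₀ two_ne_zero h4)
    obtain ⟨g, hg1, hg2, hg3⟩ := klin_of hf
    refine ⟨g, hg1, hg2, fun v hv => ?_⟩
    rw [one_mul]
    exact h v (by rw [← hg3]; exact hv)
  · intro E W _ _ _ _ _ _ _ _ _ dev hol ι B δ hδ D hinj hι hP x
    exact Pool.Agent.R522.Mk.slice_geod (K := K) D hinj ι B hι (fun γ => (hP γ).1) hδ
      (fun γ => (hP γ).2) x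

end Pool.Agent.Results.MP_df2bd8_gt.DistalTimesHyperplanes
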