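import Pool.Agent.R774.MK4

set_option autoImplicit false

open Pool.Agent.W689.Mk Pool.Agent.R774.MK

namespace Pool.Agent.Results.MP_df2bd8_gt.DivisionAlgebraHyperplanes

/-- Every closed affine manifold with parallel volume which is modelled on the affine space `E`,
whose cover `X` has the group `Γ` and an injective developing map `dev`, and whose holonomy `hol`
has all its linear parts in the class `P`, is complete: the developing map is a homeomorphism. -/
def Complete (X Γ E : Type) [TopologicalSpace X] [Group Γ] [MulAction Γ X]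
    [NormedAddCommGroup E] [NormedSpace ℝ E] (P : (E ≃ₗ[ℝ] E) → Prop) : Prop :=
  ∀ (dev : X → E) (hol : Γ →* (E ≃ᵃ[ℝ] E)), AffData X Γ E dev hol → Function.Injective dev →
    (∀ γ : Γ, P (hol γ).linear) → IsHomeomorph dev

section
variable (K : Type) [NormedDivisionRing K] {E : Type} [NormedAddCommGroup E] [NormedSpace ℝ E]
  [Module K E]

/-- a `K`-semilinear automorphism -/
def Semilinear (L : E ≃ₗ[ℝ] E) : Prop :=
  ∃ σ : K ≃+* K, ∀ (a : K) (v : E), L (a • v) = σ a • L v

/-- the map is bounded from below by `δ` on some `K`-hyperplane -/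
def BoundedBelow (δ : ℝ) (L : E ≃ₗ[ℝ] E) : Prop :=
  ∃ f : E →ₗ[K] K, f ≠ 0 ∧ ∀ v, f v = 0 → δ * ‖v‖ ≤ ‖L v‖

end

/-- the Hermite-Lorentz form -/
def lorentz (K : Type) [NormedDivisionRing K] (n : ℕ) (v : Fin (n + 1) → K) : ℝ :=
  ∑ i : Fin n, ‖v i.succ‖ ^ 2 - ‖v 0‖ ^ 2

/-- complex affine space of dimension three -/
abbrev C3 : Type := EuclideanSpace ℂ (Fin 3)

/-- the standard complex quadratic form -/
def quad (v : C3) : ℂ := ∑ i, v i ^ 2

/-- the automorphism is complex linear -/
def ComplexLinear (L : C3 → C3) : Prop := ∀ (a : ℂ) (v : C3), L (a • v) = a • L v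

/-- Let `K` be a finite dimensional real normed division algebra (the reals, the complex numbers,
the quaternions). A closed affine manifold (or orbifold) with parallel volume, given by a connected
cover `X` with its group `Γ`, developing map and holonomy, whose developing map is injective, is
complete (the developing map is a homeomorphism onto the affine space) in each of the following
cases.

* The linear holonomy is `K`-semilinear and every element of it is bounded from below by one
  constant `δ > 0` on some `K`-hyperplane.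
* The affine space has dimension two over `K` and the linear holonomy is `K`-semilinear.
* The linear holonomy is `K`-semilinear and preserves the Hermite-Lorentz form
  `∑ i, |v (i + 1)| ^ 2 - |v 0| ^ 2` on `K ^ (n + 1)`.
* The affine space is `ℂ ^ 3` and the linear holonomy is complex linear and preserves the complex
  quadratic form `∑ i, v i ^ 2`. -/
theorem result (K : Type) [NormedDivisionRing K] [NormedAlgebra ℝ K] [FiniteDimensional ℝ K]
    (X Γ : Type) [TopologicalSpace X] [T2Space X] [SecondCountableTopology X] [ConnectedSpace X]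
    [Group Γ] [MulAction Γ X] :
    (∀ (E : Type) [NormedAddCommGroup E] [NormedSpace ℝ E] [FiniteDimensional ℝ E] [Module K E]
      [IsScalarTower ℝ K E] [IsBoundedSMul K E],
      (∀ δ : ℝ, 0 < δ → Complete X Γ E fun L => Semilinear K L ∧ BoundedBelow K δ L) ∧
      (Module.finrank K E = 2 → Complete X Γ E fun L => Semilinear K L)) ∧
    (∀ n : ℕ, Complete X Γ (Fin (n + 1) → K) fun L => Semilinear K L ∧
      ∀ v, lorentz K n (L v) = lorentz K n v) ∧
    (Complete X Γ C3 fun L => ComplexLinear L ∧ ∀ v, quad (L v) = quad v) := by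
  refine ⟨?_, ?_, ?_⟩
  · intro E _ _ _ _ _ _
    refine ⟨fun δ hδ dev hol D hinj hP => ?_, fun h2 dev hol D hinj hsemi => ?_⟩
    · refine complete (K := K) D hinj (fun γ => (hP γ).1) hδ fun γ => ?_
      obtain ⟨f, hf, h⟩ := (hP γ).2
      obtain ⟨g, hg1, hg2, hg3⟩ := klin_of hf
      exact ⟨g, hg1, hg2, fun v hv => h v (by rw [← hg3]; exact hv)⟩
    · refine complete (K := K) D hinj hsemi (δ := 1 / 2) (by norm_num) fun γ => ?_
      obtain ⟨σ, hσ⟩ := hsemi γ
      exact two_dim h2 hσ (D.unimod γ)
  · intro n dev hol D hinj hP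
    refine complete (K := K) D hinj (fun γ => (hP γ).1) (δ := 1 / (n + 1 : ℝ)) (by positivity)
      fun γ => ?_
    exact form_bound _ (hP γ).2
  · intro dev hol D hinj hP
    have hlin : ∀ (γ : Γ) (a : ℂ) (v : C3), (hol γ).linear (a • v) = a • (hol γ).linear v :=
      fun γ => (hP γ).1
    have hquad : ∀ (γ : Γ) (v : C3), ∑ i, (hol γ).linear v i ^ 2 = ∑ i, v i ^ 2 :=
      fun γ => (hP γ).2
    refine complete (K := ℂ) D hinj (fun γ => ⟨RingEquiv.refl ℂ, hlin γ⟩) (δ := 1) one_pos
      fun γ => ?_
    let A : EuclideanSpace ℂ (Fin 3) →ₗ[ℂ] EuclideanSpace ℂ (Fin 3) :=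
      { toFun := fun v => (hol γ).linear v
        map_add' := fun v w => map_add _ v w
        map_smul' := fun a v => hlin γ a v }
    obtain ⟨f, hf, h⟩ := three_dim A (by
      intro v w
      have h1 : ∀ v : EuclideanSpace ℂ (Fin 3), bil (A v) (A v) = bil v v := by
        intro v
        have := hquad γ v
        unfold bil
        simp only [sq] at this
        exact this
      have h2 : ∀ v w : EuclideanSpace ℂ (Fin 3), bil (v + w) (v + w) =
          bil v v + 2 * bil v w + bil w w := by
        intro v w
        unfold bil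
        rw [Finset.mul_sum, ← Finset.sum_add_distrib, ← Finset.sum_add_distrib]
        refine Finset.sum_congr rfl fun i _ => ?_
        rw [PiLp.add_apply]
        ring
      have h3 := h1 (v + w)
      rw [map_add, h2, h2, h1, h1] at h3
      have h4 : 2 * bil (A v) (A w) = 2 * bil v w := by linear_combination h3
      exact mul_left_cancel₀ two_ne_zero h4)
    obtain ⟨g, hg1, hg2, hg3⟩ := klin_of hf
    refine ⟨g, hg1, hg2, fun v hv => ?_⟩
    rw [one_mul]
    exact h v (by rw [← hg3]; exact hv)

end Pool.Agent.Results.MP_df2bd8_gt.DivisionAlgebraHyperplanes
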