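import Pool.Agent.R522.Mk.Rk3
import Pool.Agent.Y449.MK.Sub

set_option autoImplicit false

open Pool.Agent.W689.Mk

namespace Pool.Agent.Results.MP_df2bd8_gt.SL2Representations

/-- the group `SL(2, ℝ)` -/
abbrev SL2 : Type := Matrix.SpecialLinearGroup (Fin 2) ℝ

/-- the diagonal matrix with entries `e ^ t` and `e ^ (-t)` -/
noncomputable def diag (t : ℝ) : SL2 := ⟨!![Real.exp t, 0; 0, Real.exp (-t)], by
  rw [Matrix.det_fin_two_of, mul_zero, sub_zero, ← Real.exp_add, add_neg_cancel, Real.exp_zero]⟩

/-- `ρ` is a continuous representation of `SL(2, ℝ)` on the real vector space `E` in which the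
diagonal matrices act diagonalizably: `E` is spanned by weight vectors. (The second condition is
classical for every continuous finite dimensional representation.) -/
def IsRep {E : Type} [NormedAddCommGroup E] [NormedSpace ℝ E] (ρ : SL2 →* (E ≃ₗ[ℝ] E)) : Prop :=
  (∀ v : E, Continuous fun g : SL2 => ρ g v) ∧
    Submodule.span ℝ {v : E | ∃ c : ℝ, ∀ t : ℝ, ρ (diag t) v = Real.exp (c * t) • v} = ⊤

section
variable {E F Γ : Type} [NormedAddCommGroup E] [NormedSpace ℝ E] [NormedAddCommGroup F]
  [NormedSpace ℝ F] [Group Γ]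

/-- The ranges of any two maps of the family are equal or span `E`. -/
def Transverse (P : Set (F →L[ℝ] E)) : Prop :=
  ∀ k ∈ P, ∀ l ∈ P, Set.range k = Set.range l ∨ ∀ e : E, ∃ f f' : F, k f - l f' = e

/-- The linear holonomy permutes the ranges of the maps of the family. -/
def Invariant (hol : Γ →* (E ≃ᵃ[ℝ] E)) (P : Set (F →L[ℝ] E)) : Prop :=
  ∀ γ : Γ, ∀ k ∈ P, ∃ l ∈ P, ∀ u : E, u ∈ Set.range l ↔ (hol γ).linear.symm u ∈ Set.range k

/-- For every linear holonomy element `L` there is a member `k` of the family with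
`δ ‖v‖ ≤ ‖L v‖` for all vectors `v` which are mapped to the range of `k` by `L`. -/
def BoundedBelow (hol : Γ →* (E ≃ᵃ[ℝ] E)) (P : Set (F →L[ℝ] E)) (δ : ℝ) : Prop :=
  ∀ γ : Γ, ∃ k ∈ P, ∀ f : F, δ * ‖(hol γ).linear.symm (k f)‖ ≤ ‖k f‖

/-- The linear holonomy preserves the range of `k`. -/
def Fixes (hol : Γ →* (E ≃ᵃ[ℝ] E)) (k : F →L[ℝ] E) : Prop :=
  ∀ (γ : Γ) (u : E), u ∈ Set.range k ↔ (hol γ).linear.symm u ∈ Set.range k

end

/-- Let a closed affine manifold (or orbifold) with parallel volume be given by a connected cover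
`X` with its group `Γ`, developing map `dev` and holonomy `hol`, and let the developing map be
injective.

(1) If the linear holonomy of some subgroup `H` of finite index of `Γ` lies in the image of
`SL(2, ℝ)` under some representation `ρ` on the model vector space, then the structure is complete:
the developing map is a homeomorphism.

(2) Let `P` be a compact family of subspaces (the ranges of maps `F → E`), any two different ones
of which span `E`, which is permuted by the linear holonomy, and such that every element of the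
linear holonomy is bounded from below by one constant `δ > 0` on some member of the family. Then
the structure is complete, or the linear holonomy preserves one member of the family and all
geodesics in the directions of this subspace are complete. -/
theorem result (E X Γ : Type) [NormedAddCommGroup E] [NormedSpace ℝ E] [FiniteDimensional ℝ E]
    [TopologicalSpace X] [T2Space X] [SecondCountableTopology X] [ConnectedSpace X]
    [Group Γ] [MulAction Γ X] (dev : X → E) (hol : Γ →* (E ≃ᵃ[ℝ] E))
    (D : AffData X Γ E dev hol) (hinj : Function.Injective dev) :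
    (∀ ρ : SL2 →* (E ≃ₗ[ℝ] E), IsRep ρ → ∀ H : Subgroup Γ, H.FiniteIndex →
      (∀ γ ∈ H, ∃ g : SL2, (hol γ).linear = ρ g) → IsHomeomorph dev) ∧
    (∀ (F : Type) [NormedAddCommGroup F] [NormedSpace ℝ F] [FiniteDimensional ℝ F]
      (P : Set (F →L[ℝ] E)) (δ : ℝ), 0 < δ → IsCompact P → Transverse P → Invariant hol P →
      BoundedBelow hol P δ →
      IsHomeomorph dev ∨ ∃ k ∈ P, Fixes hol k ∧ ∀ (x : X) (f : F), Geod dev x (k f)) := by
  refine ⟨fun ρ hρ H hH h => ?_, ?_⟩
  · have DH := Pool.Agent.Y449.MK.restrict D H hH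
    exact Pool.Agent.R522.Mk.Rk.sl2_complete DH hinj ρ hρ.1
      (Pool.Agent.R522.Mk.Rk.dec_of_weights ρ hρ.2) fun γ => h γ γ.2
  · intro F _ _ _ P δ hδ hPc hT hI hB
    rcases Pool.Agent.R522.Mk.Rk.fixed_plate D hinj hPc hT hδ hB hI with h | ⟨k, hk, h1, h2⟩
    · exact Or.inl h
    · exact Or.inr ⟨k, hk, h2, h1⟩

end Pool.Agent.Results.MP_df2bd8_gt.SL2Representations
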