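import Pool.Agent.R522.Mk.Ten3

set_option autoImplicit false

open Pool.Agent.W689.Mk Pool.Agent.R774.MK

namespace Pool.Agent.Results.MP_df2bd8_gt.TensorHyperplanes

/-- The entries of the matrix `A` and of a left inverse are bounded by `C`. -/
def BddInv {K : Type} [NormedDivisionRing K] {n : ℕ} (C : ℝ) (A : Matrix (Fin n) (Fin n) K) :
    Prop :=
  (∀ i j, ‖A i j‖ ≤ C) ∧ ∃ A' : Matrix (Fin n) (Fin n) K, A' * A = 1 ∧ ∀ i j, ‖A' i j‖ ≤ C

/-- Every closed affine manifold with parallel volume which is modelled on the affine space `E`,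
whose cover `X` has the group `Γ` and an injective developing map `dev`, and whose holonomy `hol`
has all its linear parts in the class `P`, is complete: the developing map is a homeomorphism. -/
def Complete (X Γ E : Type) [TopologicalSpace X] [Group Γ] [MulAction Γ X]
    [NormedAddCommGroup E] [NormedSpace ℝ E] (P : (E ≃ₗ[ℝ] E) → Prop) : Prop :=
  ∀ (dev : X → E) (hol : Γ →* (E ≃ᵃ[ℝ] E)), AffData X Γ E dev hol → Function.Injective dev →
    (∀ γ : Γ, P (hol γ).linear) → IsHomeomorph dev

/-- The class of the automorphisms `A ⊗ B : (u j) ↦ (∑ j, A i j • B (u j))` of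
`W ^ (m + 1) = K ^ (m + 1) ⊗ W`, with `B` in the class `P` and with matrices `A` over `K` which are
bounded with bounded inverse, by the constant `C`. -/
def TensorClass (K : Type) {W : Type} [NormedDivisionRing K] [NormedAddCommGroup W]
    [NormedSpace ℝ W] [Module K W] (m : ℕ) (C : ℝ) (P : (W ≃ₗ[ℝ] W) → Prop)
    (L : (Fin (m + 1) → W) ≃ₗ[ℝ] (Fin (m + 1) → W)) : Prop :=
  ∃ (A : Matrix (Fin (m + 1)) (Fin (m + 1)) K) (B : W ≃ₗ[ℝ] W), BddInv C A ∧ P B ∧
    ∀ u i, L u i = ∑ j, A i j • B (u j)

section
variable (K : Type) [NormedDivisionRing K] {W : Type} [NormedAddCommGroup W] [NormedSpace ℝ W]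
  [Module K W]

/-- a `K`-semilinear automorphism -/
def Semilinear (L : W ≃ₗ[ℝ] W) : Prop :=
  ∃ σ : K ≃+* K, ∀ (a : K) (v : W), L (a • v) = σ a • L v

/-- the map is bounded from below by `δ` on some `K`-hyperplane -/
def BoundedBelow (δ : ℝ) (L : W ≃ₗ[ℝ] W) : Prop :=
  ∃ f : W →ₗ[K] K, f ≠ 0 ∧ ∀ v, f v = 0 → δ * ‖v‖ ≤ ‖L v‖

end

/-- the Hermite-Lorentz form -/
def lorentz (K : Type) [NormedDivisionRing K] (n : ℕ) (v : Fin (n + 1) → K) : ℝ :=
  ∑ i : Fin n, ‖v i.succ‖ ^ 2 - ‖v 0‖ ^ 2

/-- complex affine space of dimension three -/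
abbrev C3 : Type := EuclideanSpace ℂ (Fin 3)

/-- the standard complex quadratic form -/
def quad (v : C3) : ℂ := ∑ i, v i ^ 2

/-- the automorphism is complex linear -/
def ComplexLinear (L : C3 → C3) : Prop := ∀ (a : ℂ) (v : C3), L (a • v) = a • L v

/-- The completeness theorem for the model spaces `W ^ (m + 1)`, with an arbitrary `K`-module `W`:
for semilinear `B` which are either bounded from below by one constant `δ > 0` on some
`K`-hyperplane, or of determinant `± 1` with `W` of dimension two over `K`. -/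
def TensorComplete (K X Γ : Type) [NormedDivisionRing K] [NormedAlgebra ℝ K]
    [TopologicalSpace X] [Group Γ] [MulAction Γ X] (m : ℕ) (C : ℝ) : Prop :=
  ∀ (W : Type) [NormedAddCommGroup W] [NormedSpace ℝ W] [FiniteDimensional ℝ W] [Module K W]
    [IsScalarTower ℝ K W] [IsBoundedSMul K W],
    (∀ δ : ℝ, 0 < δ → Complete X Γ (Fin (m + 1) → W)
      (TensorClass K m C fun B => Semilinear K B ∧ BoundedBelow K δ B)) ∧
    (Module.finrank K W = 2 → Complete X Γ (Fin (m + 1) → W)
      (TensorClass K m C fun B => Semilinear K B ∧ |LinearMap.det (B : W →ₗ[ℝ] W)| = 1))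

/-- Let `K` be a finite dimensional real normed division algebra (the reals, the complex numbers,
the quaternions). A closed affine manifold (or orbifold) with parallel volume modelled on
`W ^ (m + 1) = K ^ (m + 1) ⊗ W`, given by a connected cover `X` with its group `Γ`, developing map
and holonomy, whose developing map is injective and whose linear holonomy consists of maps
`A ⊗ B` with matrices `A` over `K` which are bounded with bounded inverses (by one constant `C`),
is complete in each of the following cases.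

* The `B` are `K`-semilinear and bounded from below by one constant `δ > 0` on some `K`-hyperplane
  (in `TensorComplete`).
* `W` has dimension two over `K` and the `B` are `K`-semilinear of determinant `± 1` (in
  `TensorComplete`).
* `W = K ^ (n + 1)`, the `B` are `K`-semilinear and preserve the Hermite-Lorentz form
  `∑ i, |v (i + 1)| ^ 2 - |v 0| ^ 2`.
* `K = ℂ`, `W = ℂ ^ 3`, the `B` are complex linear and preserve the complex quadratic form
  `∑ i, v i ^ 2`. -/
theorem result (K : Type) [NormedDivisionRing K] [NormedAlgebra ℝ K] [FiniteDimensional ℝ K]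
    (X Γ : Type) [TopologicalSpace X] [T2Space X] [SecondCountableTopology X] [ConnectedSpace X]
    [Group Γ] [MulAction Γ X] (m : ℕ) (C : ℝ) :
    TensorComplete K X Γ m C ∧
    (∀ n : ℕ, Complete X Γ (Fin (m + 1) → Fin (n + 1) → K)
      (TensorClass K m C fun B => Semilinear K B ∧ ∀ v, lorentz K n (B v) = lorentz K n v)) ∧
    Complete X Γ (Fin (m + 1) → C3)
      (TensorClass ℂ m C fun B => ComplexLinear B ∧ ∀ v, quad (B v) = quad v) := by
  refine ⟨?_, ?_, ?_⟩
  · intro W _ _ _ _ _ _
    refine ⟨fun δ hδ dev hol D hinj hT => ?_, fun h2 dev hol D hinj hT => ?_⟩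
    · choose A B hA hP hL using hT
      refine Pool.Agent.R522.Mk.Ten.complete' (K := K) D hinj A B hA hL (fun γ => (hP γ).1) hδ
        fun γ => ?_
      obtain ⟨f, hf, h⟩ := (hP γ).2
      obtain ⟨g, hg1, hg2, hg3⟩ := klin_of hf
      exact ⟨g, hg1, hg2, fun v hv => h v (by rw [← hg3]; exact hv)⟩
    · choose A B hA hP hL using hT
      refine Pool.Agent.R522.Mk.Ten.complete' (K := K) D hinj A B hA hL (fun γ => (hP γ).1)
        (δ := 1 / 2) (by norm_num) fun γ => ?_
      obtain ⟨σ, hσ⟩ := (hP γ).1
      exact two_dim h2 hσ (hP γ).2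
  · intro n dev hol D hinj hT
    choose A B hA hP hL using hT
    refine Pool.Agent.R522.Mk.Ten.complete' (K := K) D hinj A B hA hL (fun γ => (hP γ).1)
      (δ := 1 / (n + 1 : ℝ)) (by positivity) fun γ => ?_
    exact form_bound _ (hP γ).2
  · intro dev hol D hinj hT
    choose A B hA hP hL using hT
    have hlin : ∀ (γ : Γ) (a : ℂ) (v : C3), B γ (a • v) = a • B γ v := fun γ => (hP γ).1
    have hquad : ∀ (γ : Γ) (v : C3), ∑ i, B γ v i ^ 2 = ∑ i, v i ^ 2 := fun γ => (hP γ).2
    refine Pool.Agent.R522.Mk.Ten.complete' (K := ℂ) D hinj A B hA hL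
      (fun γ => ⟨RingEquiv.refl ℂ, hlin γ⟩) (δ := 1) one_pos fun γ => ?_
    let T : EuclideanSpace ℂ (Fin 3) →ₗ[ℂ] EuclideanSpace ℂ (Fin 3) :=
      { toFun := fun v => B γ v
        map_add' := fun v w => map_add _ v w
        map_smul' := fun a v => hlin γ a v }
    obtain ⟨f, hf, h⟩ := three_dim T (by
      intro v w
      have h1 : ∀ v : EuclideanSpace ℂ (Fin 3), bil (T v) (T v) = bil v v := by
        intro v
        have := hquad γ v
        unfold bil
        simp only [sq] at this
        exact this
      have h2 : ∀ v w : EuclideanSpace ℂ (Fin 3), bil (v + w) (v + w) =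
          bil v v + 2 * bil v w + bil w w := by
        intro v w
        unfold bil
        rw [Finset.mul_sum, ← Finset.sum_add_distrib, ← Finset.sum_add_distrib]
        refine Finset.sum_congr rfl fun i _ => ?_
        rw [PiLp.add_apply]
        ring
      have h3 := h1 (v + w)
      rw [map_add, h2, h2, h1, h1] at h3
      have h4 : 2 * bil (T v) (T w) = 2 * bil v w := by linear_combination h3
      exact mul_left_cancel₀ two_ne_zero h4)
    obtain ⟨g, hg1, hg2, hg3⟩ := klin_of hf
    refine ⟨g, hg1, hg2, fun v hv => ?_⟩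
    rw [one_mul]
    exact h v (by rw [← hg3]; exact hv)

end Pool.Agent.Results.MP_df2bd8_gt.TensorHyperplanes
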